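import Pool.Agent.W2helper90.RT.Stm
import Pool.Agent.N303.SH.C
import Pool.Agent.N537.RS.HDim

/-!
# Project RT, piece HARM: orthonormal harmonics and Parseval's identity
-/

set_option autoImplicit false

open MeasureTheory Set Filter Topology

namespace Pool.Agent.W2helper66.RT

open Pool.Agent.N303.SH (ip int_c int_mul ip_comm ip_add ip_smul ip_sum ip_sub exists_on)
open Pool.Agent.N537.RS (hdim Hpoly S_HDIM)

noncomputable section

/-- restriction of a polynomial to the sphere -/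
def resP (k : ℕ) : MvPolynomial (Fin k) ℝ →ₗ[ℝ] C(Pool.Agent.N303.SH.S k, ℝ) where
  toFun p := ⟨fun w => MvPolynomial.eval (fun i => (w : EuclideanSpace ℝ (Fin k)) i) p, by
    have h1 := MvPolynomial.continuous_eval p
    exact h1.comp (by fun_prop)⟩
  map_add' p q := by
    ext w
    simp
  map_smul' c p := by
    ext w
    simp [MvPolynomial.smul_eval]

lemma isH_iff {k l : ℕ} (e : C(Pool.Agent.N303.SH.S k, ℝ)) :
    Pool.Agent.W2helper90.RT.IsH k l e ↔ e ∈ (Hpoly k l).map (resP k) := by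
  rw [Submodule.mem_map]
  constructor
  · rintro ⟨p, hp, h⟩
    refine ⟨p, hp, ?_⟩
    ext w
    exact (h w).symm
  · rintro ⟨p, hp, rfl⟩
    exact ⟨p, hp, fun w => rfl⟩

section

variable {k : ℕ} {ι : Type} [Fintype ι] [DecidableEq ι] (u : ι → C(Pool.Agent.N303.SH.S k, ℝ))
  (hu : ∀ i j, ip (u i) (u j) = if i = j then 1 else 0)
include hu

lemma ip_comb (b c : ι → ℝ) : ip (∑ i, b i • u i) (∑ i, c i • u i) = ∑ i, b i * c i := by
  rw [ip_sum]
  refine Finset.sum_congr rfl fun i _ => ?_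
  rw [ip_smul, ip_comm, ip_sum]
  simp only [ip_smul, hu]
  simp
  ring

lemma ip_diff (f : C(Pool.Agent.N303.SH.S k, ℝ)) (b : ι → ℝ) :
    ip (f - ∑ i, b i • u i) (f - ∑ i, b i • u i) =
      ip f f - 2 * ∑ i, b i * ip (u i) f + ∑ i, b i ^ 2 := by
  have h1 : ip f (∑ i, b i • u i) = ∑ i, b i * ip (u i) f := by
    rw [ip_sum]
    exact Finset.sum_congr rfl fun i _ => by rw [ip_smul, ip_comm]
  have h2 := ip_comb u hu b b
  rw [ip_sub, ip_comm, ip_sub, ip_comm (f - ∑ i, b i • u i) (∑ i, b i • u i), ip_sub,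
    ip_comm (∑ i, b i • u i) f, h1, h2]
  have h3 : ∑ i, b i * b i = ∑ i, b i ^ 2 := Finset.sum_congr rfl fun i _ => by ring
  rw [h3]
  ring

lemma bessel1 (f : C(Pool.Agent.N303.SH.S k, ℝ)) : ∑ i, ip (u i) f ^ 2 ≤ ip f f := by
  have h1 := ip_diff u hu f (fun i => ip (u i) f)
  have h2 : 0 ≤ ip (f - ∑ i, ip (u i) f • u i) (f - ∑ i, ip (u i) f • u i) :=
    integral_nonneg fun w => mul_self_nonneg _
  have h3 : ∑ i, ip (u i) f * ip (u i) f = ∑ i, ip (u i) f ^ 2 :=
    Finset.sum_congr rfl fun i _ => by ring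
  rw [h3] at h1
  linarith

lemma best (f : C(Pool.Agent.N303.SH.S k, ℝ)) (b : ι → ℝ) :
    ip f f - ∑ i, ip (u i) f ^ 2 ≤ ip (f - ∑ i, b i • u i) (f - ∑ i, b i • u i) := by
  rw [ip_diff u hu f b]
  have h1 : 0 ≤ ∑ i, (b i - ip (u i) f) ^ 2 := Finset.sum_nonneg fun i _ => sq_nonneg _
  have h2 : ∑ i, (b i - ip (u i) f) ^ 2 =
      ∑ i, b i ^ 2 - 2 * ∑ i, b i * ip (u i) f + ∑ i, ip (u i) f ^ 2 := by
    rw [Finset.mul_sum, ← Finset.sum_sub_distrib, ← Finset.sum_add_distrib]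
    exact Finset.sum_congr rfl fun i _ => by ring
  linarith

end

theorem harm (hP : Pool.Agent.W2helper90.RT.S_PERP) (hDn : Pool.Agent.W2helper90.RT.S_DENS)
    (hdm : S_HDIM) : Pool.Agent.W2helper90.RT.S_HARM := by
  classical
  intro k hk
  have hfd : ∀ l, FiniteDimensional ℝ ((Hpoly k l).map (resP k)) := by
    intro l
    have := (hdm k hk l).1
    infer_instance
  choose e he1 he2 he3 using fun l => exists_on ((Hpoly k l).map (resP k))
  have hO : Pool.Agent.W2helper90.RT.Orth k _ e :=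
    { harm := fun l j => (isH_iff _).2 (he1 l j)
      one := fun l j j' => he2 l j j'
      ne := fun l l' j j' hll => hP k l l' hk hll _ _ ((isH_iff _).2 (he1 l j)) ((isH_iff _).2 (he1 l' j')) }
  refine ⟨_, e, fun l => ?_, hO, fun f => ?_⟩
  · have h1 := (hdm k hk l).2.1
    have := (hdm k hk l).1
    rw [← h1]
    exact Submodule.finrank_map_le _ _
  -- the finite families
  set g : ℕ → ℕ := fun l => Module.finrank ℝ ((Hpoly k l).map (resP k)) with hg
  let u : ∀ L : ℕ, (Σ l : Fin L, Fin (g l)) → C(Pool.Agent.N303.SH.S k, ℝ) := fun L i => e i.1 i.2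
  have hu : ∀ L, ∀ i j, ip (u L i) (u L j) = if i = j then 1 else 0 := by
    rintro L ⟨l, j⟩ ⟨l', j'⟩
    by_cases h : l = l'
    · subst h
      have h1 := he2 l j j'
      show ip (e l j) (e l j') = _
      rw [h1]
      by_cases h2 : j = j'
      · subst h2
        rw [if_pos rfl, if_pos rfl]
      · rw [if_neg h2, if_neg]
        intro h3
        exact h2 (eq_of_heq (Sigma.mk.inj h3).2)
    · rw [if_neg fun h3 => h (Sigma.mk.inj h3).1]
      exact hO.ne l l' j j' fun h3 => h (Fin.ext h3)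
  have hsum : ∀ (L : ℕ) (F : ∀ l, Fin (g l) → ℝ), ∑ i : (Σ l : Fin L, Fin (g l)), F i.1 i.2 =
      ∑ l ∈ Finset.range L, ∑ j, F l j := by
    intro L F
    rw [Fintype.sum_sigma]
    exact Fin.sum_univ_eq_sum_range (fun l => ∑ j, F l j) L
  set T : ℕ → ℝ := fun L => ∑ l ∈ Finset.range L, ∑ j, (∫ w, e l j w * f w
    ∂(Pool.Agent.N303.SH.sg k)) ^ 2 with hT
  have hTu : ∀ L, T L = ∑ i, ip (u L i) f ^ 2 := fun L => (hsum L fun l j => ip (e l j) f ^ 2).symm
  have hff : ip f f = ∫ w, f w ^ 2 ∂(Pool.Agent.N303.SH.sg k) := by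
    unfold ip
    simp only [sq]
  have hmono : Monotone T := by
    apply monotone_nat_of_le_succ
    intro L
    rw [hT]
    simp only
    rw [Finset.sum_range_succ]
    exact le_add_of_nonneg_right (Finset.sum_nonneg fun j _ => sq_nonneg _)
  have hle : ∀ L, T L ≤ ip f f := fun L => (hTu L).trans_le (bessel1 (u L) (hu L) f)
  show Tendsto T atTop _
  rw [← hff, Metric.tendsto_atTop]
  intro ε hε
  set m : ℝ := (Pool.Agent.N303.SH.sg k).real univ with hm
  have hm0 : 0 ≤ m := measureReal_nonneg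
  obtain ⟨δ, hδ, hδ2⟩ : ∃ δ : ℝ, 0 < δ ∧ δ ^ 2 * m < ε := by
    refine ⟨√(ε / (2 * (m + 1))), Real.sqrt_pos.2 (by positivity), ?_⟩
    rw [Real.sq_sqrt (by positivity)]
    rw [div_mul_eq_mul_div, div_lt_iff₀ (by positivity)]
    nlinarith
  obtain ⟨L, p, hp, hpf⟩ := hDn k hk f δ hδ
  -- the approximation as a combination
  have hex : ∃ b : (Σ l : Fin L, Fin (g l)) → ℝ, ∑ l ∈ Finset.range L, p l = ∑ i, b i • u L i := by
    refine ⟨fun i => ip (e i.1 i.2) (p i.1), ?_⟩
    have h1 : ∀ l, p l = ∑ j, ip (e l j) (p l) • e l j := fun l => he3 l _ ((isH_iff _).1 (hp l))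
    have h2 : ∑ i : (Σ l : Fin L, Fin (g l)), ip (e i.1 i.2) (p i.1) • u L i =
        ∑ l ∈ Finset.range L, ∑ j, ip (e l j) (p l) • e l j := by
      rw [Fintype.sum_sigma]
      exact Fin.sum_univ_eq_sum_range (fun l => ∑ j, ip (e l j) (p l) • e l j) L
    rw [h2]
    exact Finset.sum_congr rfl fun l _ => h1 l
  obtain ⟨b, hb⟩ := hex
  have h1 := best (u L) (hu L) f b
  rw [← hTu, ← hb] at h1
  have h2 : ip (f - ∑ l ∈ Finset.range L, p l) (f - ∑ l ∈ Finset.range L, p l) ≤ δ ^ 2 * m := by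
    have h3 : ∀ w, (f - ∑ l ∈ Finset.range L, p l) w * (f - ∑ l ∈ Finset.range L, p l) w ≤ δ ^ 2 := by
      intro w
      have h4 := hpf w
      have h5 : (f - ∑ l ∈ Finset.range L, p l) w = f w - ∑ l ∈ Finset.range L, p l w := by
        rw [ContinuousMap.sub_apply, ContinuousMap.coe_sum, Finset.sum_apply]
      rw [h5]
      have h6 := abs_nonneg (f w - ∑ l ∈ Finset.range L, p l w)
      have h7 := abs_mul_abs_self (f w - ∑ l ∈ Finset.range L, p l w)
      nlinarith
    unfold ip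
    calc ∫ w, (f - ∑ l ∈ Finset.range L, p l) w * (f - ∑ l ∈ Finset.range L, p l) w
        ∂(Pool.Agent.N303.SH.sg k) ≤ ∫ _w, δ ^ 2 ∂(Pool.Agent.N303.SH.sg k) :=
          integral_mono (int_mul _ _) (integrable_const _) h3
      _ = δ ^ 2 * m := by
          rw [integral_const, smul_eq_mul, mul_comm]
  refine ⟨L, fun N hN => ?_⟩
  rw [Real.dist_eq, abs_sub_lt_iff]
  have h3 := hmono hN
  have h4 := hle N
  constructor <;> linarith

theorem t_HARM (hP : Pool.Agent.W2helper90.RT.S_PERP) (hDn : Pool.Agent.W2helper90.RT.S_DENS) :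
    Pool.Agent.W2helper90.RT.S_HARM := harm hP hDn Pool.Agent.N537.RS.HD.t_HDIM

end

end Pool.Agent.W2helper66.RT
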