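import Pool.Agent.N537.RS.Int
import Pool.Agent.N537.RS.Inert
import Pool.Agent.N537.RS.Meas
import Pool.Agent.N537.RS.Cell
import Pool.Agent.N537.RS.LA

/-!
# Project RT, piece MAT, part 1: real matrices and suborthonormal families
-/

set_option autoImplicit false

open MeasureTheory Set Filter Topology Matrix
open scoped ComplexOrder

namespace Pool.Agent.W2helper66.RT

open Pool.Agent.N537.RS

noncomputable section

/-- complexification of vectors -/
def cv {n : ℕ} (v : Fin n → ℝ) : Fin n → ℂ := fun i => (v i : ℂ)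

/-- complexification of matrices -/
def cM {n : ℕ} (B : Matrix (Fin n) (Fin n) ℝ) : Matrix (Fin n) (Fin n) ℂ := B.map Complex.ofRealHom

lemma star_cv {n : ℕ} (v : Fin n → ℝ) : star (cv v) = cv v := by
  funext i
  simp [cv]

lemma cv_dot {n : ℕ} (v w : Fin n → ℝ) : cv v ⬝ᵥ cv w = ((v ⬝ᵥ w : ℝ) : ℂ) := by
  simp [cv, dotProduct]

lemma cM_mulVec {n : ℕ} (B : Matrix (Fin n) (Fin n) ℝ) (v : Fin n → ℝ) :
    cM B *ᵥ cv v = cv (B *ᵥ v) := by
  funext i
  simp [cM, cv, mulVec, dotProduct]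

lemma cM_herm {n : ℕ} {B : Matrix (Fin n) (Fin n) ℝ} (h : B.IsHermitian) : (cM B).IsHermitian := by
  ext i j
  have h1 := congrFun (congrFun h i) j
  simp only [conjTranspose_apply, star_trivial] at h1
  simp [cM, h1]

lemma cv_quad {n : ℕ} (B : Matrix (Fin n) (Fin n) ℝ) (v w : Fin n → ℝ) :
    star (cv v) ⬝ᵥ (cM B *ᵥ cv w) = ((v ⬝ᵥ (B *ᵥ w) : ℝ) : ℂ) := by
  rw [star_cv, cM_mulVec, cv_dot]

lemma sym_dot {n : ℕ} {B : Matrix (Fin n) (Fin n) ℝ} (h : B.IsHermitian) (v w : Fin n → ℝ) :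
    v ⬝ᵥ (B *ᵥ w) = w ⬝ᵥ (B *ᵥ v) := by
  have hT : Bᵀ = B := h
  rw [dotProduct_mulVec, ← mulVec_transpose, hT, dotProduct_comm]

lemma cM_posDef {n : ℕ} {B : Matrix (Fin n) (Fin n) ℝ} (h : B.PosDef) : (cM B).PosDef := by
  refine .of_dotProduct_mulVec_pos (cM_herm h.1) fun z hz => ?_
  set x : Fin n → ℝ := fun i => (z i).re with hx
  set y : Fin n → ℝ := fun i => (z i).im with hy
  have hz1 : z = cv x + Complex.I • cv y := by
    funext i
    simp only [cv, hx, hy, Pi.add_apply, Pi.smul_apply, smul_eq_mul]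
    rw [mul_comm]
    exact (Complex.re_add_im _).symm
  have hz2 : star z = cv x - Complex.I • cv y := by
    rw [hz1, star_add, star_smul, star_cv, star_cv]
    simp [sub_eq_add_neg]
  have h1 : star z ⬝ᵥ (cM B *ᵥ z) = ((x ⬝ᵥ (B *ᵥ x) + y ⬝ᵥ (B *ᵥ y) : ℝ) : ℂ) := by
    rw [hz2]
    conv_lhs => rw [hz1]
    rw [mulVec_add, mulVec_smul, cM_mulVec, cM_mulVec, sub_dotProduct, dotProduct_add,
      dotProduct_add, smul_dotProduct, smul_dotProduct, dotProduct_smul, dotProduct_smul,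
      cv_dot, cv_dot, cv_dot, cv_dot, sym_dot h.1 x y]
    push_cast
    simp only [smul_eq_mul]
    linear_combination (-((y ⬝ᵥ (B *ᵥ y) : ℝ) : ℂ)) * Complex.I_mul_I
  rw [h1]
  have h2 : ∀ v : Fin n → ℝ, 0 ≤ v ⬝ᵥ (B *ᵥ v) := by
    intro v
    have := h.posSemidef.dotProduct_mulVec_nonneg v
    rwa [star_trivial] at this
  have h3 : ∀ v : Fin n → ℝ, v ≠ 0 → 0 < v ⬝ᵥ (B *ᵥ v) := by
    intro v hv
    have := h.dotProduct_mulVec_pos hv
    rwa [star_trivial] at this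
  have h4 : 0 < x ⬝ᵥ (B *ᵥ x) + y ⬝ᵥ (B *ᵥ y) := by
    by_cases hx0 : x = 0
    · have hy0 : y ≠ 0 := by
        intro hy0
        apply hz
        rw [hz1, hx0, hy0]
        funext i
        simp [cv]
      exact add_pos_of_nonneg_of_pos (h2 x) (h3 y hy0)
    · exact add_pos_of_pos_of_nonneg (h3 x hx0) (h2 y)
  exact_mod_cast h4

/-- the eigenvalues over the complex numbers -/
lemma eig_sum {n : ℕ} {B : Matrix (Fin n) (Fin n) ℝ} (hB : B.IsHermitian)
    {C : Matrix (Fin n) (Fin n) ℂ} (hC : C.IsHermitian) (h : C = cM B) (f : ℝ → ENNReal) :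
    ∑ i, f (hC.eigenvalues i) = ∑ i, f (hB.eigenvalues i) := by
  have h1 := hB.roots_charpoly_eq_eigenvalues
  have h2 := hC.roots_charpoly_eq_eigenvalues
  have h3 : C.charpoly = B.charpoly.map Complex.ofRealHom := by
    rw [h]
    exact Matrix.charpoly_map B Complex.ofRealHom
  have h4 : C.charpoly.roots = B.charpoly.roots.map Complex.ofRealHom := by
    rw [h3]
    exact (hB.splits_charpoly.roots_map Complex.ofRealHom)
  rw [h2, h1, Multiset.map_map] at h4
  have h5 : Multiset.map Complex.ofReal (Multiset.map hC.eigenvalues Finset.univ.val) =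
      Multiset.map Complex.ofReal (Multiset.map hB.eigenvalues Finset.univ.val) := by
    rw [Multiset.map_map, Multiset.map_map]
    exact h4
  have h6 := Multiset.map_injective Complex.ofReal_injective h5
  have h7 := congrArg (fun s => (Multiset.map f s).sum) h6
  simp only [Multiset.map_map] at h7
  exact h7

/-- diagonalisation of the Gram matrix -/
theorem gram {n N : ℕ} (M : Matrix (Fin n) (Fin n) ℝ) (hM : M.PosDef) (v : Fin N → Fin n → ℝ)
    (hv : ∀ c : Fin N → ℝ, (∑ a, c a • v a) ⬝ᵥ (M *ᵥ (∑ a, c a • v a)) ≤ ∑ a, c a ^ 2) :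
    ∃ (D : Fin N → ℝ) (v' : Fin N → Fin n → ℝ), (∀ b, 0 ≤ D b ∧ D b ≤ 1) ∧
      (∀ b c, v' b ⬝ᵥ (M *ᵥ v' c) = if b = c then D b else 0) ∧
      ∀ B : Matrix (Fin n) (Fin n) ℝ, ∑ b, v' b ⬝ᵥ (B *ᵥ v' b) = ∑ a, v a ⬝ᵥ (B *ᵥ v a) := by
  set V : Matrix (Fin N) (Fin n) ℝ := Matrix.of v with hV
  have hG : (V * M * Vᵀ).IsHermitian := by
    have hT : Mᵀ = M := hM.1
    show (V * M * Vᵀ)ᵀ = _
    rw [transpose_mul, transpose_mul, transpose_transpose, hT, Matrix.mul_assoc]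
  set U : Matrix (Fin N) (Fin N) ℝ := hG.eigenvectorUnitary.1 with hU
  have hU1 : Uᵀ * U = 1 := Unitary.coe_star_mul_self hG.eigenvectorUnitary
  have hU2 : U * Uᵀ = 1 := Unitary.coe_mul_star_self hG.eigenvectorUnitary
  have hsp : Uᵀ * (V * M * Vᵀ) * U = diagonal hG.eigenvalues := by
    have h1 := hG.conjStarAlgAut_star_eigenvectorUnitary
    rw [Unitary.conjStarAlgAut_star_apply] at h1
    exact h1
  have hent : ∀ (W : Matrix (Fin N) (Fin n) ℝ) (B : Matrix (Fin n) (Fin n) ℝ) (b c : Fin N),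
      W b ⬝ᵥ (B *ᵥ W c) = (W * B * Wᵀ) b c := by
    intro W B b c
    rw [Matrix.mul_assoc]
    rfl
  set V' : Matrix (Fin N) (Fin n) ℝ := Uᵀ * V with hV'
  have hV'T : V'ᵀ = Vᵀ * U := by rw [hV', transpose_mul, transpose_transpose]
  have hconj : ∀ B : Matrix (Fin n) (Fin n) ℝ, V' * B * V'ᵀ = Uᵀ * (V * B * Vᵀ) * U := by
    intro B
    rw [hV'T, hV']
    simp only [Matrix.mul_assoc]
  have hD : ∀ b c, V' b ⬝ᵥ (M *ᵥ V' c) = if b = c then hG.eigenvalues b else 0 := by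
    intro b c
    rw [hent, hconj, hsp, diagonal_apply]
  refine ⟨hG.eigenvalues, V', fun b => ⟨?_, ?_⟩, hD, fun B => ?_⟩
  · have h1 := hD b b
    rw [if_pos rfl] at h1
    rw [← h1]
    have := hM.posSemidef.dotProduct_mulVec_nonneg (V' b)
    rwa [star_trivial] at this
  · have h1 := hD b b
    rw [if_pos rfl] at h1
    have h2 : V' b = ∑ a, U a b • v a := by
      funext i
      rw [hV', Matrix.mul_apply, Finset.sum_apply]
      rfl
    have h3 := hv fun a => U a b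
    rw [← h2, h1] at h3
    refine h3.trans (le_of_eq ?_)
    have h4 := congrFun (congrFun hU1 b) b
    rw [Matrix.mul_apply, one_apply_eq] at h4
    rw [← h4]
    exact Finset.sum_congr rfl fun a _ => by rw [transpose_apply]; ring
  · have h1 : ∑ b, V' b ⬝ᵥ (B *ᵥ V' b) = (V' * B * V'ᵀ).trace :=
      Finset.sum_congr rfl fun b _ => hent V' B b b
    have h2 : ∑ a, v a ⬝ᵥ (B *ᵥ v a) = (V * B * Vᵀ).trace :=
      Finset.sum_congr rfl fun a _ => hent V B a a
    rw [h1, h2, hconj, Matrix.trace_mul_comm, ← Matrix.mul_assoc, hU2, Matrix.one_mul]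

end

end Pool.Agent.W2helper66.RT
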