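import Pool.Agent.W2helper90.RT.Stm
import Pool.Agent.W2helper66.RT.MATa

/-!
# Project RT, piece MAT: the matrix inequality for suborthonormal families
-/

set_option autoImplicit false

open MeasureTheory Set Filter Topology Matrix
open scoped ComplexOrder

namespace Pool.Agent.W2helper66.RT

open Pool.Agent.N537.RS

noncomputable section

/-- the inequality for one `lam` -/
theorem part1 (h1 : Pool.Agent.N537.RS.S_INT) {n N : ℕ} (A M : Matrix (Fin n) (Fin n) ℝ)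
    (hA : A.IsHermitian) (hM : M.PosDef)
    (v : Fin N → Fin n → ℝ)
    (hv : ∀ c : Fin N → ℝ, (∑ a, c a • v a) ⬝ᵥ (M *ᵥ (∑ a, c a • v a)) ≤ ∑ a, c a ^ 2) (lam : ℝ) :
    ENNReal.ofReal (-(∑ a, v a ⬝ᵥ (A *ᵥ v a)) - lam * ∑ a, v a ⬝ᵥ v a) ≤
      ∫⁻ τ in Ioi (0 : ℝ), (cnt (cM A) (cM M) lam τ : ENNReal) := by
  classical
  obtain ⟨D, v', hD, hort, htr⟩ := gram M hM v hv
  set Qf : (Fin n → ℝ) → ℝ := fun x => x ⬝ᵥ (A *ᵥ x) + lam * (x ⬝ᵥ x) with hQf
  have e0 : -(∑ a, v a ⬝ᵥ (A *ᵥ v a)) - lam * ∑ a, v a ⬝ᵥ v a = ∑ b, -Qf (v' b) := by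
    have t1 := htr A
    have t2 := htr 1
    simp only [one_mulVec] at t2
    rw [← t1, ← t2, Finset.mul_sum, Finset.sum_neg_distrib, hQf]
    simp only
    rw [Finset.sum_add_distrib]
    ring
  set J : Finset (Fin N) := Finset.univ.filter fun b => 0 < D b ∧ Qf (v' b) < 0 with hJ
  set e : Fin N → Fin n → ℝ := fun b => (√(D b))⁻¹ • v' b with he
  have hQe : ∀ b, 0 < D b → Qf (e b) = (D b)⁻¹ * Qf (v' b) := by
    intro b hb
    have hs : (√(D b))⁻¹ * (√(D b))⁻¹ = (D b)⁻¹ := by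
      rw [← mul_inv, Real.mul_self_sqrt hb.le]
    rw [hQf, he]
    simp only
    rw [mulVec_smul, smul_dotProduct, dotProduct_smul, smul_dotProduct, dotProduct_smul, ← hs]
    simp only [smul_eq_mul]
    ring
  have e1 : ∑ b, -Qf (v' b) ≤ ∑ b ∈ J, -Qf (e b) := by
    rw [← Finset.sum_filter_add_sum_filter_not Finset.univ (fun b => 0 < D b ∧ Qf (v' b) < 0)]
    have a1 : ∑ b ∈ Finset.univ.filter (fun b => ¬ (0 < D b ∧ Qf (v' b) < 0)), -Qf (v' b) ≤ 0 := by
      refine Finset.sum_nonpos fun b hb => ?_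
      have h2 := (Finset.mem_filter.1 hb).2
      by_cases h3 : 0 < D b
      · have h4 : ¬ Qf (v' b) < 0 := fun h => h2 ⟨h3, h⟩
        linarith [not_lt.1 h4]
      · have h4 : D b = 0 := le_antisymm (not_lt.1 h3) (hD b).1
        have h5 : v' b = 0 := by
          by_contra h5
          have h6 := hM.dotProduct_mulVec_pos h5
          rw [star_trivial, hort b b, if_pos rfl, h4] at h6
          exact lt_irrefl _ h6
        rw [h5, hQf]
        simp
    have a2 : ∑ b ∈ J, -Qf (v' b) ≤ ∑ b ∈ J, -Qf (e b) := by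
      refine Finset.sum_le_sum fun b hb => ?_
      obtain ⟨h2, h3⟩ := (Finset.mem_filter.1 hb).2
      rw [hQe b h2]
      have h4 : 1 ≤ (D b)⁻¹ := (one_le_inv₀ h2).2 (hD b).2
      nlinarith
    linarith
  -- the orthonormal family
  set w : Fin J.card → Fin n → ℂ := fun i => cv (e (J.equivFin.symm i)) with hw
  have hwo : ∀ a b, star (w a) ⬝ᵥ (cM M *ᵥ w b) = if a = b then (1 : ℂ) else 0 := by
    intro a b
    rw [hw]
    simp only
    rw [cv_quad, he]
    simp only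
    rw [mulVec_smul, smul_dotProduct, dotProduct_smul, hort]
    by_cases hab : a = b
    · subst hab
      rw [if_pos rfl, if_pos rfl]
      have h2 : 0 < D (J.equivFin.symm a) := ((Finset.mem_filter.1 (J.equivFin.symm a).2).2).1
      have hs : (√(D (J.equivFin.symm a)))⁻¹ * (√(D (J.equivFin.symm a)))⁻¹ =
          (D (J.equivFin.symm a))⁻¹ := by
        rw [← mul_inv, Real.mul_self_sqrt h2.le]
      rw [smul_eq_mul, smul_eq_mul, ← mul_assoc, hs, inv_mul_cancel₀ h2.ne']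
      simp
    · have : ((J.equivFin.symm a : J) : Fin N) ≠ (J.equivFin.symm b : J) := by
        intro h
        exact hab (J.equivFin.symm.injective (Subtype.ext h))
      rw [if_neg this, if_neg hab]
      simp
  have h2 := h1 n (cM A) (cM M) (cM_herm hA) (cM_posDef hM) J.card w hwo lam
  refine le_trans (ENNReal.ofReal_le_ofReal ?_) h2
  rw [e0]
  refine e1.trans (le_of_eq ?_)
  have h3 : ∀ i, (star (w i) ⬝ᵥ (cM A *ᵥ w i)).re = e (J.equivFin.symm i) ⬝ᵥ (A *ᵥ e (J.equivFin.symm i)) := by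
    intro i
    rw [hw]
    simp only
    rw [cv_quad, Complex.ofReal_re]
  have h4 : ∀ i, (star (w i) ⬝ᵥ w i).re = e (J.equivFin.symm i) ⬝ᵥ e (J.equivFin.symm i) := by
    intro i
    rw [hw]
    simp only
    rw [star_cv, cv_dot, Complex.ofReal_re]
  simp only [h3, h4]
  rw [Finset.mul_sum, ← Finset.sum_neg_distrib, ← Finset.sum_sub_distrib,
    ← Finset.sum_coe_sort J (fun b => -Qf (e b)), ← Equiv.sum_comp J.equivFin.symm]
  refine Finset.sum_congr rfl fun i _ => ?_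
  rw [hQf]
  ring

/-- one cell -/
theorem cellsum (k : ℕ) (hk : 6 ≤ k) (h3 : S_CELL) (l g : ℕ) (hg : g ≤ hdim k l)
    (a b : Fin g → ℝ) (hb : ∀ j, 0 ≤ b j) (S : ℝ → ENNReal)
    (hS : ∀ j, ∀ lam : ℝ, ENNReal.ofReal (-a j - lam * b j) ≤ S lam) :
    ENNReal.ofReal (∑ j, (-a j - ((l : ℝ) + ((k : ℝ) - 2) / 2) ^ 2 * b j)) ≤
      ENNReal.ofReal (2 / ((k - 1).factorial : ℝ)) *
        ∫⁻ x in Ioc (PP k l) (PP k (l + 1)), S (x ^ (2 / ((k : ℝ) - 1))) := by
  set I := ENNReal.ofReal (2 / ((k - 1).factorial : ℝ)) *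
        ∫⁻ x in Ioc (PP k l) (PP k (l + 1)), S (x ^ (2 / ((k : ℝ) - 1))) with hI
  rcases Nat.eq_zero_or_pos (hdim k l) with h0 | h0
  · have : g = 0 := by omega
    subst this
    simp
  have h1 : ∀ j, (hdim k l : ENNReal) *
      ENNReal.ofReal (-a j - ((l : ℝ) + ((k : ℝ) - 2) / 2) ^ 2 * b j) ≤ I := by
    intro j
    have h2 := LA.cell k hk h3 l (hdim k l) le_rfl (a j) (b j) (hb j) S (hS j)
    rw [ENNReal.ofReal_mul (Nat.cast_nonneg _), ENNReal.ofReal_natCast] at h2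
    exact h2
  have h2 : (hdim k l : ENNReal) *
      ENNReal.ofReal (∑ j, (-a j - ((l : ℝ) + ((k : ℝ) - 2) / 2) ^ 2 * b j)) ≤
      (hdim k l : ENNReal) * I := by
    calc (hdim k l : ENNReal) *
        ENNReal.ofReal (∑ j, (-a j - ((l : ℝ) + ((k : ℝ) - 2) / 2) ^ 2 * b j))
        ≤ (hdim k l : ENNReal) *
          ∑ j, ENNReal.ofReal (-a j - ((l : ℝ) + ((k : ℝ) - 2) / 2) ^ 2 * b j) := by
          gcongr
          exact LA.ofReal_sum_le _ _
      _ = ∑ j, (hdim k l : ENNReal) *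
          ENNReal.ofReal (-a j - ((l : ℝ) + ((k : ℝ) - 2) / 2) ^ 2 * b j) := by
          rw [Finset.mul_sum]
      _ ≤ ∑ _j : Fin g, I := Finset.sum_le_sum fun j _ => h1 j
      _ = (g : ENNReal) * I := by simp
      _ ≤ (hdim k l : ENNReal) * I := by
          gcongr
  have h3 : (hdim k l : ENNReal) ≠ 0 := by
    exact_mod_cast h0.ne'
  exact (ENNReal.mul_le_mul_iff_right h3 (ENNReal.natCast_ne_top _)).1 h2

theorem mat (h1 : Pool.Agent.N537.RS.S_INT) (h2 : S_MEAS) (h3 : S_CELL) :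
    Pool.Agent.W2helper90.RT.S_MAT := by
  intro k hk n A M hA hM L g hg N v hv hH
  set e : ℝ := 2 / ((k : ℝ) - 1) with he
  set S : ℝ → ENNReal := fun lam => ∫⁻ τ in Ioi (0 : ℝ), (cnt (cM A) (cM M) lam τ : ENNReal) with hS
  have hmono : Monotone (PP k) := monotone_nat_of_le_succ fun l => ((h3 k hk).2 l).2.1
  have h0 : PP k 0 = 0 := (h3 k hk).1
  have hstep : ∀ l ∈ Finset.range L, ENNReal.ofReal (∑ j, ∑ a, (-(v l j a ⬝ᵥ (A *ᵥ v l j a)) -
      ((l : ℝ) + ((k : ℝ) - 2) / 2) ^ 2 * (v l j a ⬝ᵥ v l j a))) ≤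
      ENNReal.ofReal (2 / ((k - 1).factorial : ℝ)) *
        ∫⁻ x in Ioc (PP k l) (PP k (l + 1)), S (x ^ e) := by
    intro l hl
    have hl' := Finset.mem_range.1 hl
    have h4 := cellsum k hk h3 l (g l) (hg l hl') (fun j => ∑ a, v l j a ⬝ᵥ (A *ᵥ v l j a))
      (fun j => ∑ a, v l j a ⬝ᵥ v l j a)
      (fun j => Finset.sum_nonneg fun a _ => Finset.sum_nonneg fun i _ => mul_self_nonneg _) S
      (fun j lam => part1 h1 A M hA hM (v l j) (hv l hl' j) lam)
    refine le_trans (le_of_eq ?_) h4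
    congr 1
    refine Finset.sum_congr rfl fun j _ => ?_
    rw [Finset.sum_sub_distrib, Finset.sum_neg_distrib, Finset.mul_sum]
  have hdisj : Set.PairwiseDisjoint (↑(Finset.range L) : Set ℕ) fun l => Ioc (PP k l) (PP k (l + 1)) := by
    intro l _ l' _ hne
    exact hmono.pairwise_disjoint_on_Ioc_succ hne
  have hsub : (⋃ l ∈ Finset.range L, Ioc (PP k l) (PP k (l + 1))) ⊆ Ioi (0 : ℝ) := by
    refine iUnion₂_subset fun l _ x hx => ?_
    have : PP k 0 ≤ PP k l := hmono (Nat.zero_le l)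
    rw [h0] at this
    exact lt_of_le_of_lt this hx.1
  have hmeas : Measurable fun p : ℝ × ℝ => (cnt (cM A) (cM M) (p.1 ^ e) p.2 : ENNReal) := by
    have q1 := h2 n (cM A) (cM M) (cM_herm hA) (cM_herm hM.1)
    have q2 : Measurable fun p : ℝ × ℝ => (p.1 ^ e, p.2) :=
      (measurable_fst.pow_const e).prodMk measurable_snd
    have q3 : Measurable fun n : ℕ => (n : ENNReal) := measurable_of_countable _
    exact q3.comp (q1.comp q2)
  have hC : ∀ τ : ℝ, cM A + (τ : ℂ) • cM M = cM (A + τ • M) := by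
    intro τ
    ext i j
    simp [cM]
  have hHc : ∀ τ : ℝ, (cM A + (τ : ℂ) • cM M).IsHermitian := by
    intro τ
    rw [hC]
    exact cM_herm (hH τ)
  calc ENNReal.ofReal (∑ l ∈ Finset.range L, ∑ j, ∑ a, (-(v l j a ⬝ᵥ (A *ᵥ v l j a)) -
      ((l : ℝ) + ((k : ℝ) - 2) / 2) ^ 2 * (v l j a ⬝ᵥ v l j a)))
      ≤ ∑ l ∈ Finset.range L, ENNReal.ofReal (∑ j, ∑ a, (-(v l j a ⬝ᵥ (A *ᵥ v l j a)) -
      ((l : ℝ) + ((k : ℝ) - 2) / 2) ^ 2 * (v l j a ⬝ᵥ v l j a))) := LA.ofReal_sum_le _ _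
    _ ≤ ∑ l ∈ Finset.range L, ENNReal.ofReal (2 / ((k - 1).factorial : ℝ)) *
        ∫⁻ x in Ioc (PP k l) (PP k (l + 1)), S (x ^ e) := Finset.sum_le_sum hstep
    _ = ENNReal.ofReal (2 / ((k - 1).factorial : ℝ)) *
        ∫⁻ x in ⋃ l ∈ Finset.range L, Ioc (PP k l) (PP k (l + 1)), S (x ^ e) := by
        rw [← Finset.mul_sum, lintegral_biUnion_finset hdisj fun _ _ => measurableSet_Ioc]
    _ ≤ ENNReal.ofReal (2 / ((k - 1).factorial : ℝ)) *
        ∫⁻ x in Ioi (0 : ℝ), S (x ^ e) :=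
        mul_le_mul_right (lintegral_mono_set hsub) _
    _ = ENNReal.ofReal (2 / ((k - 1).factorial : ℝ)) *
        ∫⁻ τ in Ioi (0 : ℝ), ∫⁻ x in Ioi (0 : ℝ), (cnt (cM A) (cM M) (x ^ e) τ : ENNReal) := by
        congr 1
        exact lintegral_lintegral_swap (f := fun x τ => (cnt (cM A) (cM M) (x ^ e) τ : ENNReal))
          hmeas.aemeasurable
    _ ≤ ENNReal.ofReal (2 / ((k - 1).factorial : ℝ)) * ∫⁻ τ in Ioi (0 : ℝ),
        ∑ i, ENNReal.ofReal ((max (-(hHc τ).eigenvalues i) 0) ^ (((k : ℝ) - 1) / 2)) :=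
        mul_le_mul_right (lintegral_mono fun τ => LA.inner k hk hHc τ) _
    _ = _ := by
        congr 1
        refine lintegral_congr fun τ => ?_
        exact eig_sum (hH τ) (hHc τ) (hC τ)
          (fun x => ENNReal.ofReal ((max (-x) 0) ^ (((k : ℝ) - 1) / 2)))

theorem t_MAT : Pool.Agent.W2helper90.RT.S_MAT :=
  mat (IT.t_INT IN.t_INERT) (ME.t_MEAS IN.t_INERT) CE.t_CELL

end

end Pool.Agent.W2helper66.RT
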